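import Pool.Agent.H295R2.LM.Nat
import Pool.Agent.H562R4.Const15b

set_option autoImplicit false

/-!
Explicit unconditional lower bounds for the odd moments of zeta on the critical line, for every odd
exponent `k ≥ 15`, on `[0, T]` and on all intervals `[T, T + U]` with `U ≥ (log T) ^ B`.
-/

open Filter

theorem Pool.Agent.Results.MP_91b7ff_nt.OddFromFifteen.result (k : ℕ) (hk : Odd k)
    (h15 : 15 ≤ k) :
    (∀ᶠ T : ℝ in atTop,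
      (21 / 20) ^ ((k : ℝ) ^ 2 / 4) * (∏' p : Nat.Primes, ((1 - 1 / (p : ℝ)) ^ ((k : ℝ) ^ 2 / 4) *
          ∑' m : ℕ, (∏ i ∈ Finset.range m, ((k : ℝ) / 2 + i) / ((i : ℝ) + 1)) ^ 2 *
            (1 / (p : ℝ)) ^ m)) / Real.Gamma ((k : ℝ) ^ 2 / 4 + 1) *
        (T * Real.log T ^ ((k : ℝ) ^ 2 / 4)) ≤
      ∫ t in (0:ℝ)..T, ‖riemannZeta (1 / 2 + t * Complex.I)‖ ^ k) ∧
    (∃ B : ℝ, 0 < B ∧ ∀ᶠ T : ℝ in atTop, ∀ U : ℝ, Real.log T ^ B ≤ U →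
      (21 / 20) ^ ((k : ℝ) ^ 2 / 4) * (∏' p : Nat.Primes, ((1 - 1 / (p : ℝ)) ^ ((k : ℝ) ^ 2 / 4) *
          ∑' m : ℕ, (∏ i ∈ Finset.range m, ((k : ℝ) / 2 + i) / ((i : ℝ) + 1)) ^ 2 *
            (1 / (p : ℝ)) ^ m)) / Real.Gamma ((k : ℝ) ^ 2 / 4 + 1) *
        (U * Real.log U ^ ((k : ℝ) ^ 2 / 4)) ≤
      ∫ t in T..(T + U), ‖riemannZeta (1 / 2 + t * Complex.I)‖ ^ k) := by
  obtain ⟨N, j, q, β, hadm, hc⟩ := Pool.Agent.H562R4.const15 k hk h15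
  have hk0 : (0:ℝ) < k := by exact_mod_cast (by omega : 0 < k)
  have haF : 0 < Pool.Agent.H306R2.aF ((k : ℝ) / 2) := Pool.Agent.H306R2.aF_pos (by positivity)
  have e : Pool.Agent.H306R2.aF ((k : ℝ) / 2) =
      ∏' p : Nat.Primes, ((1 - 1 / (p : ℝ)) ^ ((k : ℝ) ^ 2 / 4) *
          ∑' m : ℕ, (∏ i ∈ Finset.range m, ((k : ℝ) / 2 + i) / ((i : ℝ) + 1)) ^ 2 *
            (1 / (p : ℝ)) ^ m) := by
    unfold Pool.Agent.H306R2.aF Pool.Agent.H306R2.lc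
    rw [show ((k : ℝ) / 2) ^ 2 = (k : ℝ) ^ 2 / 4 by ring]
  rw [← e]
  have hlt : (21 / 20) ^ ((k : ℝ) ^ 2 / 4) * Pool.Agent.H306R2.aF ((k : ℝ) / 2) /
      Real.Gamma ((k : ℝ) ^ 2 / 4 + 1) <
      Pool.Agent.H306R2.aF ((k : ℝ) / 2) * Pool.Agent.H306R2.mB ((k : ℝ) / 2) j q β := by
    calc (21 / 20) ^ ((k : ℝ) ^ 2 / 4) * Pool.Agent.H306R2.aF ((k : ℝ) / 2) /
        Real.Gamma ((k : ℝ) ^ 2 / 4 + 1) = Pool.Agent.H306R2.aF ((k : ℝ) / 2) *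
          ((21 / 20 : ℝ) ^ ((k : ℝ) ^ 2 / 4) / Real.Gamma ((k : ℝ) ^ 2 / 4 + 1)) := by ring
      _ < _ := mul_lt_mul_of_pos_left hc haF
  exact ⟨Pool.Agent.H306R2.master k j (by omega) q β hadm _ hlt,
    H295LM.masterXnat k j (by omega) q β hadm _ hlt⟩
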